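import Pool.Agent.X266.CD.Scal2

set_option autoImplicit false

/-!
# The scaled stopping time constant and the digits or fractional parts of `n`

Let `E` be a set of integers `n` given by the residues of digital functions of `n` (for example of the sums of its
digits) in pairwise coprime odd bases, or by the fractional part of `P n` for a polynomial `P` of degree `≥ 2`. The
scaled stopping time constant `γ = limsup σ_∞(n) / log n` is bounded by a linear function of the same limes superior
over the `n ∈ E` only, and even by the rate of the exceptions `n ∈ E` to `σ_∞(n) ≤ c log n`.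

Method: a dispersion argument. For `2 ^ k ≤ X ^ (1 / 16)` the total stopping time of `n > √X` is a function of
`T^k(n)` and the number of odd terms before it. For each such number the number of the fibres of `T^k` times their
range is about `X`, so that every power saving, on average over `h`, for the correlations of the digital functions at
`n` and `n + h` in residue classes modulo `2 ^ k` is a saving for the sum over `E` of every bounded function of the
total stopping time, uniformly in the function, for example for the function `[σ_∞(n) > c log X]` which depends on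
`X`. So the exceptions in `E` up to `X` control all exceptions up to `X`, with a power saving; and a power saving for
the exceptions among all integers bounds `γ`, because a long trajectory has many predecessors.
-/

namespace Pool.Agent.Results.MP_f7abf1_nt.DigitClasses

open Filter Topology
open scoped ENNReal

/-- The `3x+1` function. -/
def T (n : ℕ) : ℕ := if n % 2 = 0 then n / 2 else (3 * n + 1) / 2

/-- The total stopping time `σ_∞(n)`, the least `k` with `T^(k)(n) = 1`, and `⊤ = ∞` if there is none. -/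
noncomputable def sigma (n : ℕ) : ℕ∞ := sInf {k : ℕ∞ | ∃ j : ℕ, T^[j] n = 1 ∧ k = j}

/-- The scaled total stopping time `γ_∞(n) = σ_∞(n) / log n` in `[0, ∞]` (and `0` for `n = 1`). -/
noncomputable def scaled (n : ℕ) : ℝ≥0∞ := (sigma n : ℝ≥0∞) / ENNReal.ofReal (Real.log n)

/-- The scaled stopping time constant `γ = limsup γ_∞(n)`, in `[0, ∞]`. -/
noncomputable def gamma : ℝ≥0∞ := limsup scaled atTop

/-- The constant of the class `E`: the limes superior of `γ_∞(n)` over the `n ∈ E` only. -/
noncomputable def gammaIn (E : Set ℕ) : ℝ≥0∞ := limsup scaled (atTop ⊓ 𝓟 E)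

/-- The number of the `n`, `1 ≤ n ≤ x`, in `E` with `γ_∞(n) > c`. -/
noncomputable def slowIn (E : Set ℕ) (c x : ℝ) : ℕ :=
  {n : ℕ | 1 ≤ n ∧ (n : ℝ) ≤ x ∧ n ∈ E ∧ ENNReal.ofReal c < scaled n}.ncard

/-- `W` is a strongly additive function of the digits in base `q`, for example the sum of the digits. -/
def Additive (q : ℕ) (W : ℕ → ℤ) : Prop := ∀ n r, r < q → W (q * n + r) = W n + W r

/-- The greatest common divisor of `m` and of the numbers `W r - r W 1`, `0 ≤ r ≤ q`. For the sum of the
digits it is the greatest common divisor of `m` and `q - 1`. -/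
def obstruction (q : ℕ) (W : ℕ → ℤ) (m : ℕ) : ℕ :=
  Nat.gcd m ((Finset.range (q + 1)).gcd fun r => (W r - r * W 1).natAbs)

/-- The set of the `n` with `W i n ≡ a i` modulo `m i` for all `i`. -/
def Class {r : ℕ} (m : Fin r → ℕ) (W : Fin r → ℕ → ℤ) (a : Fin r → ℤ) : Set ℕ :=
  {n | ∀ i, (m i : ℤ) ∣ W i n - a i}

/-- `α` is irrational and not a Liouville number. -/
def Diophantine (α : ℝ) : Prop :=
  ∃ A c : ℝ, 0 < c ∧ ∀ l : ℕ, 1 ≤ l → ∀ a : ℤ, c * (l : ℝ) ^ (-A) ≤ |l * α - a|

/-- The set of the `n` for which the fractional part of `P n` is in `[u, v)`. -/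
def Part (P : Polynomial ℝ) (u v : ℝ) : Set ℕ := {n | u ≤ Int.fract (P.eval (n : ℝ)) ∧ Int.fract (P.eval (n : ℝ)) < v}

/-- The average value `2 / log (4/3)` of `γ_∞(n)`. -/
noncomputable def μ : ℝ := 2 / Real.log (4 / 3)

/-- The four properties of a class `E` of density `ρ`, with the exponent `b`; here `δ` is the density of the
`n` with finite total stopping time.

(1) For every continuous function `h` on `[0, ∞]`, the sum of `h(γ_∞(n))` over the `n ≤ X` in `E`, divided by `X`,
tends to `ρ (δ h(μ) + (1 - δ) h(∞))`.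

(2) If `c > μ`, `δ' > 0` and for all large `x` at most `x ^ (1 - δ')` of the `n ≤ x` in `E` have `γ_∞(n) > c`, then
`γ ≤ μ + (c - μ) / min (δ', b)`.

(3) `μ ≤ γ_E ≤ γ ≤ μ + (γ_E - μ) / b`, where `γ_E` is the limes superior of `γ_∞(n)` over the `n ∈ E`.

(4) Equivalent are: `γ` is finite; `γ_E` is finite; for every `c > μ` there is `δ' > 0` such that for all large `x`
at most `x ^ (1 - δ')` of the `n ≤ x` in `E` have `γ_∞(n) > c`; the same for some `c > μ`. -/
def Controls (δ ρ b : ℝ) (E : Set ℕ) : Prop :=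
  (∀ h : ℝ≥0∞ → ℝ, Continuous h →
    Tendsto (fun X : ℕ => (∑ᶠ n ∈ {n : ℕ | 1 ≤ n ∧ n ≤ X ∧ n ∈ E}, h (scaled n)) / X) atTop
      (𝓝 (ρ * (δ * h (ENNReal.ofReal μ) + (1 - δ) * h ⊤)))) ∧
  (∀ c δ' : ℝ, μ < c → 0 < δ' → (∀ᶠ x : ℝ in atTop, (slowIn E c x : ℝ) ≤ x ^ (1 - δ')) →
    gamma ≤ ENNReal.ofReal (μ + (c - μ) / min δ' b)) ∧
  (ENNReal.ofReal μ ≤ gammaIn E ∧ gammaIn E ≤ gamma ∧
    gamma ≤ ENNReal.ofReal μ + (gammaIn E - ENNReal.ofReal μ) / ENNReal.ofReal b) ∧
  [gamma < ⊤, gammaIn E < ⊤,
    ∀ c : ℝ, μ < c → ∃ δ' : ℝ, 0 < δ' ∧ ∀ᶠ x : ℝ in atTop, (slowIn E c x : ℝ) ≤ x ^ (1 - δ'),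
    ∃ c : ℝ, μ < c ∧ ∃ δ' : ℝ, 0 < δ' ∧ ∀ᶠ x : ℝ in atTop, (slowIn E c x : ℝ) ≤ x ^ (1 - δ')].TFAE

open Pool.Agent.Y965.PL Pool.Agent.X266.CD Pool.Agent.Y55.DS

/-- There is a number `δ`, `0 < δ ≤ 1`, which is `1` if and only if all the positive integers have a finite total
stopping time, with the following properties.

(A) Let `q 1, ..., q r` be pairwise coprime odd bases, let `W i` be a strongly additive integer valued function of
the digits in base `q i` and let `m i ≥ 1` be such that the obstructions of the `W i` modulo `m i` are `1`. There is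
`b > 0` such that all classes of the `n` with `W i n ≡ a i` modulo `m i` for all `i` have the four properties of
`Controls`, with the density `∏ (1 / m i)`.

(B) Let `k ≥ 2` and let `α` be irrational and not a Liouville number. There is `b > 0` such that for all
polynomials `P` of degree `k` with leading coefficient `α` and all `0 ≤ u < v ≤ 1` the set of the `n` with the
fractional part of `P n` in `[u, v)` has the four properties of `Controls`, with the density `v - u`. -/
theorem result : ∃ δ : ℝ, 0 < δ ∧ δ ≤ 1 ∧ (δ = 1 ↔ ∀ n : ℕ, 1 ≤ n → sigma n ≠ ⊤) ∧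
    (∀ (r : ℕ) (q : Fin r → ℕ), (∀ i, 3 ≤ q i ∧ Odd (q i)) → (∀ i j, i ≠ j → Nat.Coprime (q i) (q j)) →
      ∀ W : Fin r → ℕ → ℤ, (∀ i, Additive (q i) (W i)) → ∀ m : Fin r → ℕ, (∀ i, 1 ≤ m i) →
      (∀ i, obstruction (q i) (W i) (m i) = 1) → ∃ b : ℝ, 0 < b ∧ ∀ a : Fin r → ℤ,
        Controls δ (∏ i, 1 / (m i : ℝ)) b (Class m W a)) ∧
    (∀ (k : ℕ) (α : ℝ), 2 ≤ k → Diophantine α → ∃ b : ℝ, 0 < b ∧
      ∀ P : Polynomial ℝ, P.natDegree ≤ k → P.coeff k = α → ∀ u v : ℝ, 0 ≤ u → u < v → v ≤ 1 →
        Controls δ (v - u) b (Part P u v)) := by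
  classical
  obtain ⟨δ, hδ, h2, h3⟩ := nat1
  refine ⟨δ, hδ.pos, hδ.le, ?_, ?_, ?_⟩
  · rw [h2]
    refine forall₂_congr fun n _ => ?_
    exact H_iff_ex.symm.trans (SC.sigma_ne_top (n := n)).symm
  · intro r q hq hc W hW m hm hobs
    obtain ⟨C, c, hC, hc0, hc1, HT⟩ := dig_tr1 q (fun i => (hq i).1) (fun i => Nat.coprime_two_left.2 (hq i).2) hc
      W hW m hm hobs (M := 1) le_rfl
    have hρ : 0 < ∏ i, (1 / (m i : ℝ)) := Finset.prod_pos fun i _ => by
      have : (0 : ℝ) < m i := by exact_mod_cast hm i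
      positivity
    refine ⟨min c (1 / 2), lt_min hc0 (by norm_num), fun a => ?_⟩
    refine SC.main_class (E := Class m W a) hδ hρ hC hc0 hc1 fun N hN => ?_
    have h := HT a 0 N hN
    rw [ind_all] at h
    have e : ind (Cl m W a 1 0) = ind (fun n => n ∈ Class m W a) := by
      funext n
      apply ind_congr
      unfold Cl Class
      simp
    rw [e] at h
    exact h
  · intro k α hk hα
    obtain ⟨k, rfl⟩ : ∃ k', k = k' + 1 := ⟨k - 1, by omega⟩
    obtain ⟨C, c, hC, hc0, hc1, HT⟩ := pol_tr (k := k) (by omega) (α := α) hα (M := 1) le_rfl 0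
    refine ⟨min c (1 / 2), lt_min hc0 (by norm_num), fun P hP hPc u v hu huv hv => ?_⟩
    refine SC.main_class (E := Part P u v) hδ (sub_pos.2 huv) hC hc0 hc1 fun N hN => ?_
    have h := HT P hP hPc u v hu huv.le hv N hN
    rw [ind_all] at h
    have e : ind (Fr 1 0 P u v) = ind (fun n => n ∈ Part P u v) := by
      funext n
      apply ind_congr
      unfold Fr Part
      simp
    rw [e] at h
    exact h

end Pool.Agent.Results.MP_f7abf1_nt.DigitClasses
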