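import Pool.Agent.X140.Coll3

set_option autoImplicit false

/-!
The finiteness of the scaled stopping time constant of the `3x+1` function is equivalent to a power saving
for the number of exceptions to `σ_∞(n) ≤ c log n`, for one or for every constant `c` larger than the
average value `2 / log (4/3)`; and an unconditional power saving for the exceptions whose trajectories
are of bounded scaled stopping time at small scales.
-/

namespace Pool.Agent.Results.MP_f7abf1_nt.FinitenessAndExceptions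

open Filter Topology
open scoped ENNReal

/-- The `3x+1` function. -/
def T (n : ℕ) : ℕ := if n % 2 = 0 then n / 2 else (3 * n + 1) / 2

/-- The total stopping time `σ_∞(n)`, the least `k` with `T^(k)(n) = 1`, and `⊤ = ∞` if there is none. -/
noncomputable def sigma (n : ℕ) : ℕ∞ := sInf {k : ℕ∞ | ∃ j : ℕ, T^[j] n = 1 ∧ k = j}

/-- The scaled total stopping time `γ_∞(n) = σ_∞(n) / log n` in `[0, ∞]` (used for `n ≥ 2`). -/
noncomputable def scaled (n : ℕ) : ℝ≥0∞ := (sigma n : ℝ≥0∞) / ENNReal.ofReal (Real.log n)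

/-- The scaled stopping time constant `γ = limsup γ_∞(n)`, in `[0, ∞]`. -/
noncomputable def gamma : ℝ≥0∞ := limsup scaled atTop

/-- `σ_∞(n) ≤ c log n`: one of the iterates `T^(k)(n)`, `k ≤ c log n`, is `1`. -/
def Fast (c : ℝ) (n : ℕ) : Prop := ∃ k : ℕ, (k : ℝ) ≤ c * Real.log n ∧ T^[k] n = 1

/-- The number of the `n`, `1 ≤ n ≤ x`, such that `σ_∞(m) > c log m` for all the `H` integers
`m = n, ..., n + H - 1`. -/
noncomputable def slowRuns (c : ℝ) (H : ℕ) (x : ℝ) : ℕ :=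
  {n : ℕ | 1 ≤ n ∧ (n : ℝ) ≤ x ∧ ∀ h < H, ¬ Fast c (n + h)}.ncard

/-- The number of the `n`, `1 ≤ n ≤ x`, with `σ_∞(n) > c log n`. -/
noncomputable def slow (c : ℝ) (x : ℝ) : ℕ := {n : ℕ | 1 ≤ n ∧ (n : ℝ) ≤ x ∧ ¬ Fast c n}.ncard

/-- The number of the `n`, `1 ≤ n ≤ x`, with `σ_∞(n) > c log n`, but `σ_∞(m) ≤ C log m` for all the
elements `m`, `2 ≤ m ≤ x ^ η`, of the trajectory of `n`. -/
noncomputable def slowGoodEnd (C c η x : ℝ) : ℕ :=
  {n : ℕ | 1 ≤ n ∧ (n : ℝ) ≤ x ∧ ¬ Fast c n ∧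
    ∀ j : ℕ, 2 ≤ T^[j] n → ((T^[j] n : ℕ) : ℝ) ≤ x ^ η → Fast C (T^[j] n)}.ncard

theorem slowRuns_eq (c : ℝ) (H : ℕ) (x : ℝ) :
    slowRuns c H x = (Pool.Agent.W33.Coll.Bad Set.univ c H x).ncard := by
  unfold slowRuns Pool.Agent.W33.Coll.Bad
  congr 1
  ext n
  constructor
  · rintro ⟨h1, h2, h3⟩
    exact ⟨h1, h2, Set.mem_univ _, h3⟩
  · rintro ⟨h1, h2, _, h3⟩
    exact ⟨h1, h2, h3⟩

theorem inv_univ : Pool.Agent.W33.Coll.Inv Set.univ := fun _ _ => Iff.rfl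

theorem slowRuns_one (c x : ℝ) : slowRuns c 1 x = slow c x := by
  unfold slowRuns slow
  congr 1
  ext n
  constructor
  · rintro ⟨h1, h2, h3⟩
    exact ⟨h1, h2, h3 0 one_pos⟩
  · rintro ⟨h1, h2, h3⟩
    refine ⟨h1, h2, fun h hh => ?_⟩
    have : h = 0 := by omega
    subst this
    exact h3

theorem fast_iff {c : ℝ} {n : ℕ} (hn : 2 ≤ n) (hc : 0 ≤ c) : Fast c n ↔ scaled n ≤ ENNReal.ofReal c := by
  have hlog : 0 < Real.log n := Real.log_pos (by exact_mod_cast hn)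
  unfold scaled
  rw [ENNReal.div_le_iff (by rw [Ne, ENNReal.ofReal_eq_zero]; exact not_le.2 hlog)
    ENNReal.ofReal_ne_top, ← ENNReal.ofReal_mul hc]
  constructor
  · rintro ⟨k, hk, hk1⟩
    have h1 : sigma n ≤ k := sInf_le ⟨k, hk1, rfl⟩
    have h2 : (sigma n : ℝ≥0∞) ≤ ((k : ℕ∞) : ℝ≥0∞) := ENat.toENNReal_le.2 h1
    refine h2.trans ?_
    rw [ENat.toENNReal_coe, ← ENNReal.ofReal_natCast]
    exact ENNReal.ofReal_le_ofReal hk
  · intro h
    have hne : {k : ℕ∞ | ∃ j : ℕ, T^[j] n = 1 ∧ k = j}.Nonempty := by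
      by_contra hcon
      rw [Set.not_nonempty_iff_eq_empty] at hcon
      have h1 : sigma n = ⊤ := by unfold sigma; rw [hcon, sInf_empty]
      rw [h1, ENat.toENNReal_top, top_le_iff] at h
      exact ENNReal.ofReal_ne_top h
    obtain ⟨j, hj, hj1⟩ := csInf_mem hne
    have h2 : sigma n = j := hj1
    refine ⟨j, ?_, hj⟩
    rw [h2, ENat.toENNReal_coe, ← ENNReal.ofReal_natCast] at h
    exact (ENNReal.ofReal_le_ofReal_iff (by positivity)).1 h

theorem gamma_le {c : ℝ} (hc : 0 ≤ c) (h : ∀ᶠ n : ℕ in atTop, Fast c n) :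
    gamma ≤ ENNReal.ofReal c := by
  refine limsup_le_of_le (by isBoundedDefault) ?_
  filter_upwards [h, eventually_ge_atTop 2] with n h1 h2
  exact (fast_iff h2 hc).1 h1

theorem fast_of_gamma (h : gamma < ⊤) : ∃ c : ℝ, 0 ≤ c ∧ ∀ᶠ n : ℕ in atTop, Fast c n := by
  obtain ⟨b, hb1, hb2⟩ := exists_between h
  have h1 : ∀ᶠ n in atTop, scaled n < b := eventually_lt_of_limsup_lt hb1 (by isBoundedDefault)
  refine ⟨b.toReal, ENNReal.toReal_nonneg, ?_⟩
  filter_upwards [h1, eventually_ge_atTop 2] with n h1 h2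
  rw [fast_iff h2 ENNReal.toReal_nonneg, ENNReal.ofReal_toReal hb2.ne]
  exact h1.le

/-- Let `μ = 2 / log (4/3)`, the average value of `σ_∞(n) / log n`.

(1) For all `C` and `c > μ` there are `η, δ > 0` such that for all large `x` at most `x ^ (1 - δ)` of the
`n ≤ x` have `σ_∞(n) > c log n` although `σ_∞(m) ≤ C log m` for all the elements `2 ≤ m ≤ x ^ η` of the
trajectory of `n`.

(2) The following are equivalent: (a) `γ` is finite; (b) for every `c > μ` there is `δ > 0` such that for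
all large `x` at most `x ^ (1 - δ)` of the `n ≤ x` have `σ_∞(n) > c log n`; (c) there are `c > μ`, `δ > 0`
and `H` such that for all large `x` at most `x ^ (1 - δ)` of the `n ≤ x` start a run of `H` integers with
`σ_∞(m) > c log m`.

(3) If (c) holds with `c`, `H` and `δ ≤ 1` then `γ ≤ μ + (c - μ) / δ`. -/
theorem result :
    (∀ C c : ℝ, 2 / Real.log (4 / 3) < c → ∃ η : ℝ, 0 < η ∧ ∃ δ : ℝ, 0 < δ ∧
      ∀ᶠ x : ℝ in atTop, (slowGoodEnd C c η x : ℝ) ≤ x ^ (1 - δ)) ∧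
    [gamma < ⊤,
      ∀ c : ℝ, 2 / Real.log (4 / 3) < c → ∃ δ : ℝ, 0 < δ ∧ ∀ᶠ x : ℝ in atTop,
        (slow c x : ℝ) ≤ x ^ (1 - δ),
      ∃ c : ℝ, 2 / Real.log (4 / 3) < c ∧ ∃ δ : ℝ, 0 < δ ∧ ∃ H : ℕ, ∀ᶠ x : ℝ in atTop,
        (slowRuns c H x : ℝ) ≤ x ^ (1 - δ)].TFAE ∧
    (∀ (c δ : ℝ) (H : ℕ), 2 / Real.log (4 / 3) < c → 0 < δ → δ ≤ 1 →
      (∀ᶠ x : ℝ in atTop, (slowRuns c H x : ℝ) ≤ x ^ (1 - δ)) →
      gamma ≤ ENNReal.ofReal (2 / Real.log (4 / 3) + (c - 2 / Real.log (4 / 3)) / δ)) := by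
  have hl0 : 0 < Real.log (4 / 3) := Real.log_pos (by norm_num)
  have hμ0 : 0 < 2 / Real.log (4 / 3) := by positivity
  have h1 : ∀ C c : ℝ, 2 / Real.log (4 / 3) < c → ∃ η : ℝ, 0 < η ∧ ∃ δ : ℝ, 0 < δ ∧
      ∀ᶠ x : ℝ in atTop, (slowGoodEnd C c η x : ℝ) ≤ x ^ (1 - δ) := by
    intro C c hc
    obtain ⟨η, hη, δ, hδ, X, hX⟩ := Pool.Agent.X140.C3.saving (C := C) hc
    exact ⟨η, hη, δ, hδ, eventually_atTop.2 ⟨X, fun x hx => hX x hx⟩⟩
  have h3 : ∀ (c δ : ℝ) (H : ℕ), 2 / Real.log (4 / 3) < c → 0 < δ → δ ≤ 1 →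
      (∀ᶠ x : ℝ in atTop, (slowRuns c H x : ℝ) ≤ x ^ (1 - δ)) →
      gamma ≤ ENNReal.ofReal (2 / Real.log (4 / 3) + (c - 2 / Real.log (4 / 3)) / δ) := by
    intro c δ H hc hδ hδ1 h
    obtain ⟨X, hX⟩ := eventually_atTop.1 h
    have hq : 0 ≤ (c - 2 / Real.log (4 / 3)) / δ := div_nonneg (by linarith) hδ.le
    refine ENNReal.le_of_forall_pos_le_add fun ε hε _ => ?_
    have hε' : (0 : ℝ) < ε := by exact_mod_cast hε
    obtain ⟨N, hN⟩ := Pool.Agent.W33.Coll.transfer inv_univ (H := H) hc hδ hδ1 hε'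
      ⟨X, fun x hx => by rw [← slowRuns_eq]; exact hX x hx⟩
    have h5 := gamma_le (c := 2 / Real.log (4 / 3) + (c - 2 / Real.log (4 / 3)) / δ + ε)
      (by linarith) (eventually_atTop.2 ⟨N, fun n hn => hN n hn (Set.mem_univ _)⟩)
    refine h5.trans (le_of_eq ?_)
    rw [ENNReal.ofReal_add (by linarith) hε'.le, ENNReal.ofReal_coe_nnreal]
  refine ⟨h1, ?_, h3⟩
  tfae_have 1 → 2 := by
    intro h c hc
    obtain ⟨C₀, hC₀, hF⟩ := fast_of_gamma h
    obtain ⟨N, hN⟩ := eventually_atTop.1 hF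
    obtain ⟨C, hC⟩ := Pool.Agent.W33.Coll.all_fast inv_univ (c := C₀) (N₁ := N)
      (fun n hn _ => hN n hn)
    obtain ⟨η, hη, δ, hδ, hs⟩ := h1 C c hc
    refine ⟨δ, hδ, ?_⟩
    filter_upwards [hs] with x hx
    refine le_trans ?_ hx
    have : slow c x ≤ slowGoodEnd C c η x := by
      unfold slow slowGoodEnd
      apply Set.ncard_le_ncard
      · rintro n ⟨g1, g2, g3⟩
        exact ⟨g1, g2, g3, fun j hj _ => hC _ hj (Set.mem_univ _)⟩
      · apply (Set.finite_Icc 1 ⌊x⌋₊).subset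
        rintro n ⟨g1, g2, _⟩
        exact ⟨g1, Nat.le_floor g2⟩
    exact_mod_cast this
  tfae_have 2 → 3 := by
    intro h
    obtain ⟨δ, hδ, hx⟩ := h (2 / Real.log (4 / 3) + 1) (by linarith)
    refine ⟨2 / Real.log (4 / 3) + 1, by linarith, δ, hδ, 1, ?_⟩
    simpa only [slowRuns_one] using hx
  tfae_have 3 → 1 := by
    rintro ⟨c, hc, δ, hδ, H, hx⟩
    have hx' : ∀ᶠ x : ℝ in atTop, (slowRuns c H x : ℝ) ≤ x ^ (1 - min δ 1) := by
      filter_upwards [hx, eventually_ge_atTop 1] with x h1 h2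
      exact h1.trans (Real.rpow_le_rpow_of_exponent_le h2 (by linarith [min_le_left δ 1]))
    exact (h3 c (min δ 1) H hc (lt_min hδ one_pos) (min_le_right _ _) hx').trans_lt
      ENNReal.ofReal_lt_top
  tfae_finish

end Pool.Agent.Results.MP_f7abf1_nt.FinitenessAndExceptions
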