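import Pool.Agent.Y966.LD.Main1

set_option autoImplicit false

/-!
The lower tail of the total stopping times of the `3x+1` function: the large deviation law of the repeated
random walk model, and a power saving for a longer range.
-/

namespace Pool.Agent.Results.MP_f7abf1_nt.LowerTail

/-- The `3x+1` function. -/
def T (n : ℕ) : ℕ := if n % 2 = 0 then n / 2 else (3 * n + 1) / 2

/-- `k` is the total stopping time of `n`: the least `k ≥ 0` with `T^(k)(n) = 1` (so it is finite). -/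
def IsStoppingTime (n k : ℕ) : Prop := IsLeast {j : ℕ | T^[j] n = 1} k

/-- `g(a) = sup_θ (θ a - log (½ (2^θ + (2/3)^θ)))`, the rate function of the repeated random walk model. -/
noncomputable def g (a : ℝ) : ℝ :=
  ⨆ θ : ℝ, (θ * a - Real.log ((1 / 2) * ((2 : ℝ) ^ θ + (2 / 3 : ℝ) ^ θ)))

/-- The number of the `n` with `2 ≤ n ≤ x` and scaled total stopping time `σ_∞(n) / log n ≤ α`. -/
noncomputable def low (α x : ℝ) : ℝ :=
  ({n : ℕ | 2 ≤ n ∧ (n : ℝ) ≤ x ∧ ∃ k : ℕ, IsStoppingTime n k ∧ (k : ℝ) / Real.log n ≤ α}.ncard : ℝ)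

theorem low_eq (α x : ℝ) : low α x = ((Pool.Agent.Y966.LD.SetLow α x).ncard : ℝ) := by
  unfold low Pool.Agent.Y966.LD.SetLow
  congr 2
  ext n
  constructor
  · rintro ⟨h1, h2, k, h3, h4⟩
    have hlog : 0 < Real.log n := Real.log_pos (by exact_mod_cast h1)
    exact ⟨h1, h2, k, h3, (div_le_iff₀ hlog).1 h4⟩
  · rintro ⟨h1, h2, k, h3, h4⟩
    have hlog : 0 < Real.log n := Real.log_pos (by exact_mod_cast h1)
    exact ⟨h1, h2, k, h3, (div_le_iff₀ hlog).2 h4⟩

theorem log_three_halves_lt : Real.log (3 / 2) < 0.4055 := by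
  rw [Real.log_div (by norm_num) (by norm_num)]
  have h1 := Real.log_two_gt_d9
  have h2 := Real.log_three_lt_d9
  norm_num at *
  linarith

/-- THE LOWER TAIL OF THE TOTAL STOPPING TIMES.

(1) For `1 / log 2 < α ≤ 3 / log (8/3)` (up to `3.0586`) the number of the `n ≤ x` with
`σ_∞(n) ≤ α log n` is `x^(1 - α g(1/α) + o(1))`, as the expected number in the repeated random walk
model.

(2) For every `α > 1 / log 2` it is at most `x^(β + o(1))`, with
`β = (log (3/2) / log 3) (α log (3/2) + 1)`.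

(3) The exponent `β` is smaller than `1` for `1 / log 2 < α ≤ 4.2`: only `x^(1 - δ)` of the `n ≤ x` have
a total stopping time at most `4.2 log n`. -/
theorem result :
    (∀ α : ℝ, 1 / Real.log 2 < α → α ≤ 3 / Real.log (8 / 3) → ∀ ε : ℝ, 0 < ε →
      ∃ X₀ : ℝ, ∀ x : ℝ, X₀ ≤ x →
        x ^ (1 - α * g (1 / α) - ε) ≤ low α x ∧ low α x ≤ x ^ (1 - α * g (1 / α) + ε)) ∧
    (∀ α : ℝ, 1 / Real.log 2 < α → ∀ ε : ℝ, 0 < ε → ∃ X₀ : ℝ, ∀ x : ℝ, X₀ ≤ x →
      low α x ≤ x ^ (Real.log (3 / 2) / Real.log 3 * (α * Real.log (3 / 2) + 1) + ε)) ∧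
    (∀ α : ℝ, 1 / Real.log 2 < α → α ≤ 21 / 5 →
      Real.log (3 / 2) / Real.log 3 * (α * Real.log (3 / 2) + 1) < 1 ∧
      ∃ δ : ℝ, 0 < δ ∧ ∃ X₀ : ℝ, ∀ x : ℝ, X₀ ≤ x → low α x ≤ x ^ (1 - δ)) := by
  obtain ⟨h1, h2⟩ := Pool.Agent.Y966.LD.main_low
  have h2' : ∀ α : ℝ, 1 / Real.log 2 < α → ∀ ε : ℝ, 0 < ε → ∃ X₀ : ℝ, ∀ x : ℝ, X₀ ≤ x →
      low α x ≤ x ^ (Real.log (3 / 2) / Real.log 3 * (α * Real.log (3 / 2) + 1) + ε) := by
    intro α hα ε hε
    obtain ⟨X₀, hX⟩ := h2 α hα ε hε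
    refine ⟨X₀, fun x hx => ?_⟩
    rw [low_eq]
    exact hX x hx
  refine ⟨fun α hα hα' ε hε => ?_, h2', fun α hα hα' => ?_⟩
  · obtain ⟨X₀, hX⟩ := h1 α hα hα' ε hε
    refine ⟨X₀, fun x hx => ?_⟩
    rw [low_eq]
    exact hX x hx
  · have hL : 0 < Real.log (3 / 2) := Real.log_pos (by norm_num)
    have hL1 := log_three_halves_lt
    have hl2 := Real.log_two_gt_d9
    have hl3 : Real.log 3 = Real.log (3 / 2) + Real.log 2 := by
      rw [← Real.log_mul (by norm_num) (by norm_num)]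
      norm_num
    have hl30 : 0 < Real.log 3 := Real.log_pos (by norm_num)
    set L := Real.log (3 / 2) with hLdef
    have hb : L / Real.log 3 * (α * L + 1) < 1 := by
      rw [div_mul_eq_mul_div, div_lt_one hl30, hl3]
      have h5 : α * L ≤ 21 / 5 * L := mul_le_mul_of_nonneg_right hα' hL.le
      have h6 : L * (α * L + 1) ≤ L * (21 / 5 * L + 1) :=
        mul_le_mul_of_nonneg_left (by linarith) hL.le
      have h7 : L * L ≤ 0.4055 * 0.4055 := mul_le_mul hL1.le hL1.le hL.le (by norm_num)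
      norm_num at h7 hl2
      nlinarith
    refine ⟨hb, (1 - L / Real.log 3 * (α * L + 1)) / 2, by linarith, ?_⟩
    obtain ⟨X₀, hX⟩ := h2' α hα ((1 - L / Real.log 3 * (α * L + 1)) / 2) (by linarith)
    refine ⟨X₀, fun x hx => (hX x hx).trans (le_of_eq ?_)⟩
    congr 1
    ring

end Pool.Agent.Results.MP_f7abf1_nt.LowerTail
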