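import Mathlib
import Pool.Agent.X62.BF.Laws
import Pool.Agent.X62.BF.SumPat
import Pool.Agent.X62.BF.PhiS
import Pool.Agent.Y964.LW.G1

set_option autoImplicit false

/-!
The scaled total stopping times of all finite sums and of all pairwise products of `k` integers.
-/

namespace Pool.Agent.Results.MP_f7abf1_nt.SumsAndProducts

open Filter Topology Finset

/-- the `3x+1` function -/
def T (n : ℕ) : ℕ := if n % 2 = 0 then n / 2 else (3 * n + 1) / 2

/-- `t` is the total stopping time of `n` -/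
def IsTotalStoppingTime (n t : ℕ) : Prop := T^[t] n = 1 ∧ ∀ j < t, T^[j] n ≠ 1

/-- the number of odd terms among `n, T n, ..., T^(k-1) n` -/
def odds (k n : ℕ) : ℕ := ((Finset.range k).filter fun i => T^[i] n % 2 = 1).card

/-- the positive integers with the property `P` have the natural density `δ` -/
def HasDensity (P : ℕ → Prop) (δ : ℝ) : Prop :=
  Tendsto (fun N : ℕ => ({n : ℕ | 1 ≤ n ∧ n ≤ N ∧ P n}.ncard : ℝ) / N) atTop (𝓝 δ)

/-- `(½ log (4/3))⁻¹ + x * log 3 * √(2 / ((log (4/3))^3 log n))` -/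
noncomputable def bound (x : ℝ) (n : ℕ) : ℝ :=
  (1 / 2 * Real.log (4 / 3))⁻¹ + x * (Real.log 3 * Real.sqrt (2 / (Real.log (4 / 3) ^ 3 * Real.log n)))

/-- The distribution function of the standard normal law. -/
noncomputable def Phi (x : ℝ) : ℝ :=
  ProbabilityTheory.cdf (ProbabilityTheory.gaussianReal 0 1) x

/-- The total stopping time of `n` is finite and `≡ a` modulo `m`, the number of odd terms before `1`
is `≡ b` modulo `m`, and the scaled total stopping time is at most `bound x n`. -/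
def Level (m : ℕ) (a b : ℤ) (x : ℝ) (n : ℕ) : Prop :=
  ∃ t : ℕ, (t : ℝ) / Real.log n ≤ bound x n ∧ IsTotalStoppingTime n t ∧
    (t : ℤ) ≡ a [ZMOD m] ∧ (odds t n : ℤ) ≡ b [ZMOD m]

/-- The scaled total stopping time of `n` is finite and within `η` of `2 / log (4/3)`. -/
def Typical (η : ℝ) (n : ℕ) : Prop :=
  ∃ t : ℕ, IsTotalStoppingTime n t ∧ |(t : ℝ) / Real.log n - 2 / Real.log (4 / 3)| ≤ η

/-- Every sum of some of the `v i` has the same total stopping time (finite or not) as its summand with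
the largest index. -/
def SumsFollow {k : ℕ} (v : Fin k → ℕ) : Prop := ∀ (J : Finset (Fin k)) (hJ : J.Nonempty) (t : ℕ),
  IsTotalStoppingTime (∑ i ∈ J, v i) t ↔ IsTotalStoppingTime (v (J.max' hJ)) t

/-- The scales `P i` are at least `N₀`, and `P j ^ α ≤ P i ≤ P j ^ ϑ` for `i < j`. -/
def Scales {k : ℕ} (α ϑ : ℝ) (N₀ : ℕ) (P : Fin k → ℕ) : Prop :=
  (∀ i, N₀ ≤ P i) ∧ ∀ i j, i < j → (P j : ℝ) ^ α ≤ P i ∧ (P i : ℝ) ≤ (P j : ℝ) ^ ϑ

theorem bound_iff (x : ℝ) {n : ℕ} (hn : 1 < n) (t : ℕ) :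
    (t : ℝ) / Real.log n ≤ bound x n ↔ (t : ℝ) ≤ 2 / Real.log (4 / 3) * Real.log n
      + x * (Real.log 3 * Real.sqrt (2 * Real.log n / Real.log (4 / 3) ^ 3)) := by
  have hL : 0 < Real.log n := Real.log_pos (by exact_mod_cast hn)
  have hnu : 0 < Real.log (4 / 3) := Real.log_pos (by norm_num)
  rw [div_le_iff₀ hL]
  have e : bound x n * Real.log n = 2 / Real.log (4 / 3) * Real.log n
      + x * (Real.log 3 * Real.sqrt (2 * Real.log n / Real.log (4 / 3) ^ 3)) := by
    unfold bound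
    have h1 : Real.sqrt (2 * Real.log n / Real.log (4 / 3) ^ 3)
        = Real.sqrt (2 / (Real.log (4 / 3) ^ 3 * Real.log n)) * Real.log n := by
      have h2 : 2 * Real.log n / Real.log (4 / 3) ^ 3
          = 2 / (Real.log (4 / 3) ^ 3 * Real.log n) * Real.log n ^ 2 := by field_simp
      rw [h2, Real.sqrt_mul (by positivity), Real.sqrt_sq hL.le]
    rw [h1, add_mul]
    congr 1
    · field_simp
    · ring
  rw [e]

open Pool.Agent.X62.BF (PL PL_congr PL_not joint_sets joint_law pl_laws lln sums_fol Dn_typical)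
open Pool.Agent.H499R2.ND (Dn Tn)

theorem hH (k n : ℕ) : Pool.Agent.H499R2.HL.H k n ↔ IsTotalStoppingTime n k := Iff.rfl

theorem hodd (k n : ℕ) : odds k n = Pool.Agent.H499R2.LT.odn k n := rfl

theorem fol_iff {k : ℕ} (v : Fin k → ℕ) : Pool.Agent.X62.BF.Fol v ↔ SumsFollow v := Iff.rfl

theorem phi01 (x : ℝ) : 0 ≤ Phi x ∧ Phi x ≤ 1 := by
  unfold Phi
  rw [← Pool.Agent.H499R2.ND.phi_cdf]
  exact Pool.Agent.Y964.LW.phi01 x

theorem ncard_pi {k : ℕ} (X : Fin k → Finset ℕ) (Q : (Fin k → ℕ) → Prop) [DecidablePred Q] :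
    ({v : Fin k → ℕ | (∀ i, v i ∈ X i) ∧ Q v}.ncard : ℝ) = ((Fintype.piFinset X).filter Q).card := by
  rw [← Set.ncard_coe_finset]
  congr 2
  ext v
  simp [Fintype.mem_piFinset]

theorem card_lt (k : ℕ) : (univ.filter (fun e : Fin k × Fin k => e.1 < e.2)).card = k * (k - 1) / 2 := by
  have e3 : (univ.filter (fun e : Fin k × Fin k => e.1 < e.2)).card = ∑ j : Fin k, (j : ℕ) := by
    have : univ.filter (fun e : Fin k × Fin k => e.1 < e.2) =
        univ.biUnion (fun j : Fin k => (Finset.Iio j).image (fun i => (i, j))) := by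
      ext ⟨i, j⟩
      simp only [mem_filter, mem_univ, true_and, mem_biUnion, mem_image, Finset.mem_Iio, Prod.mk.injEq]
      constructor
      · intro h; exact ⟨j, i, h, rfl, rfl⟩
      · rintro ⟨j', i', h, rfl, rfl⟩; exact h
    rw [this, card_biUnion]
    · apply sum_congr rfl
      intro j _
      rw [card_image_of_injective _ (fun _ _ h => (Prod.mk.inj h).1), Fin.card_Iio]
    · intro i _ j _ hij
      rw [Function.onFun, disjoint_left]
      rintro ⟨p, q⟩ h4 h5
      rw [mem_image] at h4 h5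
      obtain ⟨_, _, h6⟩ := h4
      obtain ⟨_, _, h7⟩ := h5
      exact hij ((Prod.mk.inj h6).2.trans (Prod.mk.inj h7).2.symm)
  rw [e3, Fin.sum_univ_eq_sum_range (fun j => j) k, sum_range_id]

/-- the tuples with entries in the sets `X i` and the property `A` -/
def Tup {k : ℕ} (X : Fin k → Finset ℕ) (A : (Fin k → ℕ) → Prop) : Set (Fin k → ℕ) :=
  {v : Fin k → ℕ | (∀ i, v i ∈ X i) ∧ A v}

theorem Tup_fin {k : ℕ} (X : Fin k → Finset ℕ) (A : (Fin k → ℕ) → Prop) : (Tup X A).Finite :=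
  (Fintype.piFinset X).finite_toSet.subset fun v hv => by
    rw [mem_coe, Fintype.mem_piFinset]; exact hv.1

/-- dropping a rare condition -/
theorem drop {k : ℕ} {X R : Fin k → Finset ℕ} (hX : ∀ i, X i ⊆ R i) (A F : (Fin k → ℕ) → Prop)
    {m e1 e2 : ℝ} (h1 : |((Tup X A).ncard : ℝ) - m| ≤ e1)
    (h2 : ((Tup R (fun v => ¬ F v)).ncard : ℝ) ≤ e2) :
    |((Tup X (fun v => F v ∧ A v)).ncard : ℝ) - m| ≤ e1 + e2 := by
  have h3 : (Tup X (fun v => F v ∧ A v)).ncard ≤ (Tup X A).ncard :=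
    Set.ncard_le_ncard (fun v hv => ⟨hv.1, hv.2.2⟩) (Tup_fin X A)
  have h4 : (Tup X A).ncard ≤ (Tup X (fun v => F v ∧ A v)).ncard + (Tup R (fun v => ¬ F v)).ncard := by
    refine (Set.ncard_le_ncard ?_ ((Tup_fin _ _).union (Tup_fin _ _))).trans (Set.ncard_union_le _ _)
    intro v hv
    by_cases h : F v
    · exact Or.inl ⟨hv.1, h, hv.2⟩
    · exact Or.inr ⟨fun i => hX i (hv.1 i), h⟩
  have h3' : ((Tup X (fun v => F v ∧ A v)).ncard : ℝ) ≤ (Tup X A).ncard := by exact_mod_cast h3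
  have h4' : ((Tup X A).ncard : ℝ) ≤ (Tup X (fun v => F v ∧ A v)).ncard + (Tup R (fun v => ¬ F v)).ncard := by
    exact_mod_cast h4
  rw [abs_le] at h1 ⊢
  constructor <;> linarith [h1.1, h1.2]

theorem Tup_card {k : ℕ} (X : Fin k → Finset ℕ) (Q : (Fin k → ℕ) → Prop) [DecidablePred Q] :
    ((Tup X Q).ncard : ℝ) = ((Fintype.piFinset X).filter Q).card := ncard_pi X Q

/-- sums of typical integers -/
theorem typical_sum {η : ℝ} (hη : 0 < η) (k : ℕ) : ∃ n0 : ℕ, ∀ x y : ℕ, n0 ≤ x → x ≤ y → y ≤ (k + 1) * x →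
    (∀ t : ℕ, IsTotalStoppingTime y t ↔ IsTotalStoppingTime x t) → Typical (η / 2) x → Typical η y := by
  have tl : Tendsto (fun n : ℕ => Real.log n) atTop atTop :=
    Real.tendsto_log_atTop.comp tendsto_natCast_atTop_atTop
  have hnu : 0 < Real.log (4 / 3) := Real.log_pos (by norm_num)
  obtain ⟨n0, hn0⟩ := eventually_atTop.1 (tl.eventually_ge_atTop
    (max 1 ((2 / Real.log (4 / 3) + η) * Real.log (k + 1) / (η / 2))))
  refine ⟨max n0 2, fun x y hx hxy hyx hs => ?_⟩
  rintro ⟨t, ht, h1⟩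
  refine ⟨t, (hs t).2 ht, ?_⟩
  have h2 := hn0 x ((le_max_left _ _).trans hx)
  have hx2 : 2 ≤ x := (le_max_right _ _).trans hx
  have hL1 : 1 ≤ Real.log x := (le_max_left _ _).trans h2
  have hL2 := (le_max_right _ _).trans h2
  rw [div_le_iff₀ (by positivity)] at hL2
  have hx0 : (0 : ℝ) < x := by exact_mod_cast (by omega : 0 < x)
  have hy0 : (0 : ℝ) < y := by exact_mod_cast (by omega : 0 < y)
  have g1 : Real.log x ≤ Real.log y := Real.log_le_log hx0 (by exact_mod_cast hxy)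
  have g2 : Real.log y ≤ Real.log (k + 1) + Real.log x := by
    rw [← Real.log_mul (by positivity) (by positivity)]
    exact Real.log_le_log hy0 (by exact_mod_cast hyx)
  have hLx : 0 < Real.log x := by linarith
  have hLy : 0 < Real.log y := by linarith
  have hc : 0 < 2 / Real.log (4 / 3) := by positivity
  set c := 2 / Real.log (4 / 3) with hcdef
  rw [abs_le] at h1 ⊢
  have ht0 : (0 : ℝ) ≤ t := Nat.cast_nonneg t
  have h3 : (t : ℝ) / Real.log y ≤ t / Real.log x := div_le_div_of_nonneg_left ht0 hLx g1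
  have h4 : (t : ℝ) / Real.log x ≤ c + η := by linarith [h1.2]
  have hlk : 0 ≤ Real.log ((k : ℝ) + 1) := Real.log_nonneg (by
    have : (0 : ℝ) ≤ k := Nat.cast_nonneg k
    linarith)
  have h5 : (t : ℝ) / Real.log x - t / Real.log y ≤ η / 2 := by
    have e : (t : ℝ) / Real.log x - t / Real.log y = (t / Real.log x) * ((Real.log y - Real.log x) / Real.log y) := by
      field_simp
    rw [e]
    have h6 : (Real.log y - Real.log x) / Real.log y ≤ Real.log (k + 1) / Real.log x := by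
      apply div_le_div₀ hlk (by linarith) hLx g1
    calc (t : ℝ) / Real.log x * ((Real.log y - Real.log x) / Real.log y)
        ≤ (c + η) * (Real.log (k + 1) / Real.log x) := by
          apply mul_le_mul h4 h6 _ (by positivity)
          exact div_nonneg (by linarith) hLy.le
      _ = (c + η) * Real.log (k + 1) / Real.log x := by ring
      _ ≤ η / 2 := by
          rw [div_le_iff₀ hLx]
          linarith
  constructor <;> linarith [h1.1, h1.2]

open scoped Classical in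
/-- THE SCALED TOTAL STOPPING TIMES OF FINITE SUMS AND OF PAIRWISE PRODUCTS. Let `δ > 0` be the natural
density of the positive integers with finite total stopping time (`δ = 1` if and only if all are finite).
(1) SUMS. For all `k` and `ε > 0` there are `ϑ > 0` and `N₀` such that for all `P i ≥ N₀` with
`P i ≤ P j ^ ϑ` for `i < j`, for all but at most `ε ∏ P i` of the tuples `v i ∈ (P i, 2 P i]`, every one of
the `2 ^ k - 1` sums of some of the `v i` has the same total stopping time as its largest summand.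
(2) THE LAW, ARBITRARY SETS. Let `m ≥ 1`, residues `a i j`, `b i j` modulo `m`, real numbers `x i j` and
`ε > 0` be given. There is `ϑ > 0` such that for every `α > 0` there is `N₀` such that for all scales
`P i ≥ N₀` with `P j ^ α ≤ P i ≤ P j ^ ϑ` for `i < j` and ALL sets `X i ⊆ (P i, 2 P i]`: the number of the
tuples `v i ∈ X i` whose sums behave as in (1) and for which all products `n = v i * v j` (`i < j`) have finite
total stopping times `≡ a i j`, numbers of odd terms `≡ b i j` modulo `m` and scaled total stopping times at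
most `(½ log (4/3))⁻¹ + x i j log 3 √(2 / ((log (4/3))^3 log n))` is `∏_{i < j} δ Φ(x i j) / m²` times
`∏ |X i|`, up to `ε ∏ P i`.
(3) THE JOINT LAW. The number of the tuples `v i ∈ (P i, 2 P i]` for which moreover the `v i` themselves
satisfy the same conditions with `x i i`, `a i i`, `b i i` is `∏_{i ≤ j} δ Φ(x i j) / m²` times `∏ P i`, up to
`ε ∏ P i`.
(4) For every `η > 0` the number of the tuples `v i ∈ (P i, 2 P i]` for which ALL the `2 ^ k - 1` finite sums
and all the `k (k - 1) / 2` products have scaled total stopping times within `η` of `2 / log (4/3)` is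
`δ ^ (k (k + 1) / 2) ∏ P i` up to `ε ∏ P i`.
(5) DENSE SETS. For `c > 0` and `y i j < x i j` there is `ϑ > 0` such that for every `α > 0` there is `N₀`
such that for such scales all sets `X i` with at least `c P i` elements in `(P i, 2 P i]` contain `v i`
whose sums behave as in (1) and for which all products `v i * v j` have scaled total stopping times in the
windows given by `y i j` and `x i j` (and residues as in (2)). -/
theorem result : ∃ δ : ℝ, 0 < δ ∧ δ ≤ 1 ∧ (δ = 1 ↔ ∀ n : ℕ, 1 ≤ n → ∃ t, IsTotalStoppingTime n t) ∧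
    HasDensity (fun n => ∃ t, IsTotalStoppingTime n t) δ ∧
    (∀ (k : ℕ) (ε : ℝ), 0 < ε → ∃ ϑ : ℝ, 0 < ϑ ∧ ∃ N₀ : ℕ, ∀ P : Fin k → ℕ, (∀ i, N₀ ≤ P i) →
      (∀ i j, i < j → (P i : ℝ) ≤ (P j : ℝ) ^ ϑ) →
      ({v : Fin k → ℕ | (∀ i, v i ∈ Ioc (P i) (2 * P i)) ∧ ¬ SumsFollow v}.ncard : ℝ) ≤ ε * ∏ i, (P i : ℝ)) ∧
    (∀ (k m : ℕ), 1 ≤ m → ∀ (a b : Fin k → Fin k → ℤ) (x : Fin k → Fin k → ℝ) (ε : ℝ), 0 < ε →
      ∃ ϑ : ℝ, 0 < ϑ ∧ ∀ α : ℝ, 0 < α → ∃ N₀ : ℕ, ∀ P : Fin k → ℕ, Scales α ϑ N₀ P →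
      (∀ X : Fin k → Finset ℕ, (∀ i, X i ⊆ Ioc (P i) (2 * P i)) →
        |({v : Fin k → ℕ | (∀ i, v i ∈ X i) ∧ (SumsFollow v ∧
            ∀ i j, i < j → Level m (a i j) (b i j) (x i j) (v i * v j))}.ncard : ℝ) -
          (∏ e : Fin k × Fin k with e.1 < e.2, δ * Phi (x e.1 e.2) / m ^ 2) * ∏ i, ((X i).card : ℝ)| ≤
          ε * ∏ i, (P i : ℝ)) ∧
      |({v : Fin k → ℕ | (∀ i, v i ∈ Ioc (P i) (2 * P i)) ∧ (SumsFollow v ∧
            (∀ i, Level m (a i i) (b i i) (x i i) (v i)) ∧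
            ∀ i j, i < j → Level m (a i j) (b i j) (x i j) (v i * v j))}.ncard : ℝ) -
          (∏ e : Fin k × Fin k with e.1 ≤ e.2, δ * Phi (x e.1 e.2) / m ^ 2) * ∏ i, (P i : ℝ)| ≤
          ε * ∏ i, (P i : ℝ)) ∧
    (∀ (k : ℕ) (η ε : ℝ), 0 < η → 0 < ε →
      ∃ ϑ : ℝ, 0 < ϑ ∧ ∀ α : ℝ, 0 < α → ∃ N₀ : ℕ, ∀ P : Fin k → ℕ, Scales α ϑ N₀ P →
        |({v : Fin k → ℕ | (∀ i, v i ∈ Ioc (P i) (2 * P i)) ∧
            ((∀ J : Finset (Fin k), J.Nonempty → Typical η (∑ i ∈ J, v i)) ∧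
              ∀ i j, i < j → Typical η (v i * v j))}.ncard : ℝ) -
          δ ^ (k + k * (k - 1) / 2) * ∏ i, (P i : ℝ)| ≤ ε * ∏ i, (P i : ℝ)) ∧
    (∀ (k m : ℕ), 1 ≤ m → ∀ (a b : Fin k → Fin k → ℤ) (x y : Fin k → Fin k → ℝ) (c : ℝ), 0 < c →
      (∀ i j, y i j < x i j) →
      ∃ ϑ : ℝ, 0 < ϑ ∧ ∀ α : ℝ, 0 < α → ∃ N₀ : ℕ, ∀ P : Fin k → ℕ, Scales α ϑ N₀ P →
      ∀ X : Fin k → Finset ℕ, (∀ i, X i ⊆ Ioc (P i) (2 * P i)) → (∀ i, c * P i ≤ (X i).card) →
        ∃ v : Fin k → ℕ, (∀ i, v i ∈ X i) ∧ SumsFollow v ∧ ∀ i j, i < j →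
          Level m (a i j) (b i j) (x i j) (v i * v j) ∧ ¬ Level m (a i j) (b i j) (y i j) (v i * v j)) := by
  obtain ⟨δ, h0, h1, h2, h3, h4, h5⟩ := pl_laws
  obtain ⟨δ', g0, g1, g2, g3, g4⟩ := Pool.Agent.H499R2.LT.law_one
  have eδ : δ' = δ := tendsto_nhds_unique g3 h3
  rw [eδ] at g4
  have hL : ∀ (m : ℕ) (a b : ℤ) (x : ℝ), 1 ≤ m → PL (Level m a b x) (δ * Phi x / m ^ 2) := by
    intro m a b x hm
    have h6 := ((h5 m a b hm).2.2 x).1
    have e : δ / (m : ℝ) ^ 2 * Pool.Agent.H499R2.ND.Phi x = δ * Phi x / m ^ 2 := by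
      unfold Phi
      rw [← Pool.Agent.H499R2.ND.phi_cdf]
      ring
    rw [e] at h6
    refine PL_congr 2 (fun n hn => exists_congr fun t => ?_) h6
    rw [bound_iff x (by omega) t, hodd, hH]
    have e2 : Pool.Agent.H499R2.HL.bk x (Real.log n) = 2 / Real.log (4 / 3) * Real.log n
      + x * (Real.log 3 * Real.sqrt (2 * Real.log n / Real.log (4 / 3) ^ 3)) := rfl
    rw [e2]
    tauto
  have hLd : ∀ (m : ℕ) (a b : ℤ) (x : ℝ), 1 ≤ m → Dn (Level m a b x) (δ * Phi x / m ^ 2) := by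
    intro m a b x hm
    refine Pool.Agent.Y964.LW.Dn_fin (R := 1) (fun n hn => exists_congr fun t => ?_) ((g4 m a b hm).2 x)
    rw [bound_iff x hn t, hodd]
    exact Iff.rfl
  have h01 : ∀ (m : ℕ) (x : ℝ), 1 ≤ m → 0 ≤ δ * Phi x / m ^ 2 ∧ δ * Phi x / m ^ 2 ≤ 1 := by
    intro m x hm
    have hm1 : (1 : ℝ) ≤ m := by exact_mod_cast hm
    have hp := phi01 x
    refine ⟨by have := hp.1; positivity, ?_⟩
    rw [div_le_one (by positivity)]
    have : δ * Phi x ≤ 1 := mul_le_one₀ h1 hp.1 hp.2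
    nlinarith
  have e0 : ∀ (η : ℝ) (n t : ℕ), 2 ≤ n → (|(t : ℝ) - 2 / Real.log (4 / 3) * Real.log n| ≤ η * Real.log n ↔
      |(t : ℝ) / Real.log n - 2 / Real.log (4 / 3)| ≤ η) := by
    intro η n t hn
    have hL : 0 < Real.log n := Real.log_pos (by exact_mod_cast (by omega : 1 < n))
    have e1 : (t : ℝ) - 2 / Real.log (4 / 3) * Real.log n =
        ((t : ℝ) / Real.log n - 2 / Real.log (4 / 3)) * Real.log n := by field_simp
    rw [e1, abs_mul, abs_of_pos hL]
    exact mul_le_mul_iff_left₀ hL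
  have hll : ∀ η : ℝ, 0 < η → PL (Typical η) δ := by
    intro η hη
    have hrr := Pool.Agent.H499R2.HL.rr_pos
    have hl3 : 0 < Real.log 3 := Real.log_pos (by norm_num)
    have h6 := lln (f := fun k _ => (k : ℝ)) (α := 2 / Real.log (4 / 3))
      (σ := Real.log 3 * Pool.Agent.H499R2.HL.rr) (δ := δ) (η := η) (by positivity) h0.le h1 hη (fun x => by
        have h7 := ((h5 1 0 0 le_rfl).2.2 x).1
        have e1 : δ / ((1 : ℕ) : ℝ) ^ 2 * Pool.Agent.H499R2.ND.Phi x = δ * Pool.Agent.H499R2.ND.Phi x := by simp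
        rw [e1] at h7
        refine PL_congr 0 (fun n _ => exists_congr fun k => and_congr_right fun _ => ?_) h7
        rw [← Pool.Agent.Y964.LW.bk_thr]
        simp [Int.modEq_one]) h4
    exact PL_congr 2 (fun n hn => exists_congr fun k => by rw [hH, e0 η n k hn]) h6
  have hlld : ∀ η : ℝ, 0 < η → Dn (Typical η) δ := by
    intro η hη
    exact Pool.Agent.Y964.LW.Dn_fin (R := 1) (fun n hn => exists_congr fun k => by rw [hH, e0 η n k (by omega)])
      (Dn_typical h3 hη)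
  refine ⟨δ, h0, h1, ?_, ?_, ?_, ?_, ?_, ?_⟩
  · rw [h2]
    refine forall₂_congr fun n hn => ?_
    exact (Pool.Agent.Y964.LW.hit_iff n)
  · refine Pool.Agent.H499R2.LT.Dn_iff (fun n hn => ?_) h3
    exact (Pool.Agent.Y964.LW.hit_iff n)
  · intro k ε hε
    obtain ⟨ϑ, t0, N0, H⟩ := sums_fol k hε
    refine ⟨ϑ, t0, N0, fun P hP hPP => ?_⟩
    show ((Tup (fun i => Ioc (P i) (2 * P i)) (fun v => ¬ SumsFollow v)).ncard : ℝ) ≤ _
    rw [Tup_card]
    convert H P hP hPP
    exact Iff.rfl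
  · intro k m hm a b x ε hε
    obtain ⟨ϑ1, t1, k1⟩ := joint_sets k (fun e => Level m (a e.1 e.2) (b e.1 e.2) (x e.1 e.2))
      (fun e => δ * Phi (x e.1 e.2) / m ^ 2) (fun e => h01 m _ hm) (fun e => hL m _ _ _ hm)
      (show 0 < ε / 2 by positivity)
    obtain ⟨ϑ2, t2, k2⟩ := joint_law k (fun i => Level m (a i i) (b i i) (x i i))
      (fun i => δ * Phi (x i i) / m ^ 2) (fun i => h01 m _ hm) (fun i => hLd m _ _ _ hm)
      (fun e => Level m (a e.1 e.2) (b e.1 e.2) (x e.1 e.2))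
      (fun e => δ * Phi (x e.1 e.2) / m ^ 2) (fun e => h01 m _ hm) (fun e => hL m _ _ _ hm)
      (show 0 < ε / 2 by positivity)
    obtain ⟨ϑ3, t3, N3, k3⟩ := sums_fol k (show 0 < ε / 2 by positivity)
    refine ⟨min ϑ1 (min ϑ2 ϑ3), lt_min t1 (lt_min t2 t3), fun α hα => ?_⟩
    obtain ⟨N1, k1⟩ := k1 α hα
    obtain ⟨N2, k2⟩ := k2 α hα
    refine ⟨max (max 1 N3) (max N1 N2), fun P hP => ?_⟩
    have hP1 : ∀ i, (1 : ℝ) ≤ P i := fun i => by
      exact_mod_cast ((le_max_left _ _).trans (le_max_left _ _)).trans (hP.1 i)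
    have hN3 : ∀ i, N3 ≤ P i := fun i => ((le_max_right _ _).trans (le_max_left _ _)).trans (hP.1 i)
    have hN1 : ∀ i, N1 ≤ P i := fun i => ((le_max_left _ _).trans (le_max_right _ _)).trans (hP.1 i)
    have hN2 : ∀ i, N2 ≤ P i := fun i => ((le_max_right _ _).trans (le_max_right _ _)).trans (hP.1 i)
    have hF := k3 P hN3 (fun i j hij => (hP.2 i j hij).2.trans
        (Real.rpow_le_rpow_of_exponent_le (hP1 j) ((min_le_right _ _).trans (min_le_right _ _))))
    have e5 : ε * ∏ i, (P i : ℝ) = ε / 2 * ∏ i, (P i : ℝ) + ε / 2 * ∏ i, (P i : ℝ) := by ring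
    have hF' : ((Tup (fun i => Ioc (P i) (2 * P i)) (fun v => ¬ SumsFollow v)).ncard : ℝ) ≤
        ε / 2 * ∏ i, (P i : ℝ) := by
      rw [Tup_card]
      convert hF
      exact Iff.rfl
    refine ⟨fun X hX => ?_, ?_⟩
    · have h := k1 P hN1 (fun i j hij => ⟨(hP.2 i j hij).1, (hP.2 i j hij).2.trans
        (Real.rpow_le_rpow_of_exponent_le (hP1 j) (min_le_left _ _))⟩) X hX
      rw [e5]
      refine drop hX (fun v => ∀ i j, i < j → Level m (a i j) (b i j) (x i j) (v i * v j)) SumsFollow ?_ hF'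
      rw [Tup_card]
      convert h
    · have h := k2 P hN2 (fun i j hij => ⟨(hP.2 i j hij).1, (hP.2 i j hij).2.trans
        (Real.rpow_le_rpow_of_exponent_le (hP1 j) ((min_le_right _ _).trans (min_le_left _ _)))⟩)
      rw [e5]
      have e2 : (∏ e : Fin k × Fin k with e.1 ≤ e.2, δ * Phi (x e.1 e.2) / (m : ℝ) ^ 2) =
          (∏ i, δ * Phi (x i i) / (m : ℝ) ^ 2) * ∏ e : Fin k × Fin k with e.1 < e.2, δ * Phi (x e.1 e.2) / (m : ℝ) ^ 2 := by
        have e3 : (univ.filter (fun e : Fin k × Fin k => e.1 ≤ e.2)) =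
            (univ.image (fun i : Fin k => (i, i))) ∪ univ.filter (fun e : Fin k × Fin k => e.1 < e.2) := by
          ext ⟨i, j⟩
          simp only [mem_filter, mem_univ, true_and, mem_union, mem_image, Prod.mk.injEq]
          constructor
          · intro h
            rcases eq_or_lt_of_le h with h | h
            · exact Or.inl ⟨i, rfl, h⟩
            · exact Or.inr h
          · rintro (⟨l, rfl, rfl⟩ | h)
            · exact le_rfl
            · exact h.le
        rw [e3, prod_union, prod_image]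
        · intro i _ j _ h
          exact (Prod.mk.inj h).1
        · rw [disjoint_left]
          rintro ⟨i, j⟩ h4 h5
          rw [mem_image] at h4
          obtain ⟨l, _, h6⟩ := h4
          have h7 := (mem_filter.1 h5).2
          rw [Prod.mk.injEq] at h6
          rw [← h6.1, ← h6.2] at h7
          exact lt_irrefl _ h7
      rw [e2]
      refine drop (X := fun i => Ioc (P i) (2 * P i)) (fun _ => subset_rfl)
        (fun v => (∀ i, Level m (a i i) (b i i) (x i i) (v i)) ∧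
            ∀ i j, i < j → Level m (a i j) (b i j) (x i j) (v i * v j)) SumsFollow ?_ hF'
      rw [Tup_card]
      convert h
  · intro k η ε hη hε
    obtain ⟨n0, hn0⟩ := typical_sum hη k
    obtain ⟨ϑ1, t1, k1⟩ := joint_law k (fun _ => Typical (η / 2)) (fun _ => δ) (fun _ => ⟨h0.le, h1⟩)
      (fun _ => hlld (η / 2) (by positivity)) (fun _ => Typical η) (fun _ => δ) (fun _ => ⟨h0.le, h1⟩)
      (fun _ => hll η hη) (show 0 < ε / 2 by positivity)
    obtain ⟨ϑ2, t2, k2⟩ := joint_law k (fun _ => Typical η) (fun _ => δ) (fun _ => ⟨h0.le, h1⟩)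
      (fun _ => hlld η hη) (fun _ => Typical η) (fun _ => δ) (fun _ => ⟨h0.le, h1⟩)
      (fun _ => hll η hη) (show 0 < ε / 2 by positivity)
    obtain ⟨ϑ3, t3, N3, k3⟩ := sums_fol k (show 0 < ε / 2 by positivity)
    refine ⟨min (min ϑ1 (1 / 2)) (min ϑ2 ϑ3), lt_min (lt_min t1 (by norm_num)) (lt_min t2 t3), fun α hα => ?_⟩
    obtain ⟨N1, k1⟩ := k1 α hα
    obtain ⟨N2, k2⟩ := k2 α hα
    refine ⟨max (max (max 4 n0) N3) (max N1 N2), fun P hP => ?_⟩
    have hP0 : ∀ i, max (max 4 n0) N3 ≤ P i := fun i => (le_max_left _ _).trans (hP.1 i)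
    have hP4 : ∀ i, 4 ≤ P i := fun i => (((le_max_left _ _).trans (le_max_left _ _)).trans (hP0 i))
    have hPn : ∀ i, n0 ≤ P i := fun i => (((le_max_right _ _).trans (le_max_left _ _)).trans (hP0 i))
    have hP4r : ∀ i, (4 : ℝ) ≤ P i := fun i => by exact_mod_cast hP4 i
    have hP1 : ∀ i, (1 : ℝ) ≤ P i := fun i => by linarith [hP4r i]
    have hN3 : ∀ i, N3 ≤ P i := fun i => (le_max_right _ _).trans (hP0 i)
    have hN1 : ∀ i, N1 ≤ P i := fun i => ((le_max_left _ _).trans (le_max_right _ _)).trans (hP.1 i)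
    have hN2 : ∀ i, N2 ≤ P i := fun i => ((le_max_right _ _).trans (le_max_right _ _)).trans (hP.1 i)
    have hF := k3 P hN3 (fun i j hij => (hP.2 i j hij).2.trans
        (Real.rpow_le_rpow_of_exponent_le (hP1 j) ((min_le_right _ _).trans (min_le_right _ _))))
    have f1 := k1 P hN1 (fun i j hij => ⟨(hP.2 i j hij).1, (hP.2 i j hij).2.trans
        (Real.rpow_le_rpow_of_exponent_le (hP1 j) ((min_le_left _ _).trans (min_le_left _ _)))⟩)
    have f2 := k2 P hN2 (fun i j hij => ⟨(hP.2 i j hij).1, (hP.2 i j hij).2.trans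
        (Real.rpow_le_rpow_of_exponent_le (hP1 j) ((min_le_right _ _).trans (min_le_left _ _)))⟩)
    have hsm : ∀ i j, i < j → 2 * P i ≤ P j := by
      intro i j hij
      have c1 := (hP.2 i j hij).2.trans (Real.rpow_le_rpow_of_exponent_le (hP1 j)
        ((min_le_left _ _).trans (min_le_right _ _)))
      rw [← Real.sqrt_eq_rpow] at c1
      have c2 := Real.sq_sqrt (show (0 : ℝ) ≤ P j by linarith [hP1 j])
      have c3 : (2 : ℝ) ≤ Real.sqrt (P j) := by
        rw [show (2 : ℝ) = Real.sqrt 4 by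
          rw [show (4 : ℝ) = 2 ^ 2 by norm_num, Real.sqrt_sq (by norm_num)]]
        exact Real.sqrt_le_sqrt (hP4r j)
      have c4 : (2 : ℝ) * P i ≤ P j := by nlinarith
      exact_mod_cast c4
    have eC : (∏ _i : Fin k, δ) * (∏ e ∈ univ.filter (fun e : Fin k × Fin k => e.1 < e.2), δ) =
        δ ^ (k + k * (k - 1) / 2) := by
      rw [prod_const, prod_const, card_univ, Fintype.card_fin, card_lt, ← pow_add]
    rw [eC] at f1 f2
    have hF' : ((Tup (fun i => Ioc (P i) (2 * P i)) (fun v => ¬ SumsFollow v)).ncard : ℝ) ≤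
        ε / 2 * ∏ i, (P i : ℝ) := by
      rw [Tup_card]
      convert hF
      exact Iff.rfl
    have f1' := drop (X := fun i => Ioc (P i) (2 * P i)) (fun _ => subset_rfl)
      (fun v => (∀ i, Typical (η / 2) (v i)) ∧ ∀ i j, i < j → Typical η (v i * v j)) SumsFollow
      (m := δ ^ (k + k * (k - 1) / 2) * ∏ i, (P i : ℝ)) (e1 := ε / 2 * ∏ i, (P i : ℝ))
      (by rw [Tup_card]; convert f1) hF'
    have f2' : |((Tup (fun i => Ioc (P i) (2 * P i))
        (fun v => (∀ i, Typical η (v i)) ∧ ∀ i j, i < j → Typical η (v i * v j))).ncard : ℝ) -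
        δ ^ (k + k * (k - 1) / 2) * ∏ i, (P i : ℝ)| ≤ ε / 2 * ∏ i, (P i : ℝ) := by
      rw [Tup_card]
      convert f2
    have hPr : (0 : ℝ) ≤ ∏ i, (P i : ℝ) := prod_nonneg fun i _ => Nat.cast_nonneg _
    have s1 : (Tup (fun i => Ioc (P i) (2 * P i)) (fun v => SumsFollow v ∧
        ((∀ i, Typical (η / 2) (v i)) ∧ ∀ i j, i < j → Typical η (v i * v j)))).ncard ≤
        (Tup (fun i => Ioc (P i) (2 * P i)) (fun v =>
          ((∀ J : Finset (Fin k), J.Nonempty → Typical η (∑ i ∈ J, v i)) ∧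
              ∀ i j, i < j → Typical η (v i * v j)))).ncard := by
      refine Set.ncard_le_ncard ?_ (Tup_fin _ _)
      rintro v ⟨hv0, hvF, hv1, hv2⟩
      refine ⟨hv0, fun J hJ => ?_, hv2⟩
      have hbox := fun i => mem_Ioc.1 (hv0 i)
      set j := J.max' hJ with hj
      have hjJ : j ∈ J := max'_mem J hJ
      refine hn0 (v j) _ ?_ ?_ ?_ (hvF J hJ) (hv1 j)
      · have := hPn j
        have := (hbox j).1
        omega
      · exact single_le_sum (f := v) (fun _ _ => Nat.zero_le _) hjJ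
      · have c1 : ∀ i ∈ J, v i ≤ v j := by
          intro i hi
          rcases eq_or_lt_of_le (le_max' J i hi) with h | h
          · rw [h]
          · have := hsm i j h
            have := (hbox i).2
            have := (hbox j).1
            omega
        have c2 := sum_le_card_nsmul J v (v j) c1
        have c3 : J.card ≤ k := by
          refine (card_le_univ _).trans ?_
          rw [Fintype.card_fin]
        rw [nsmul_eq_mul] at c2
        push_cast at c2
        calc ∑ i ∈ J, v i ≤ J.card * v j := c2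
          _ ≤ (k + 1) * v j := Nat.mul_le_mul_right _ (by omega)
    have s2 : (Tup (fun i => Ioc (P i) (2 * P i)) (fun v =>
          ((∀ J : Finset (Fin k), J.Nonempty → Typical η (∑ i ∈ J, v i)) ∧
              ∀ i j, i < j → Typical η (v i * v j)))).ncard ≤
        (Tup (fun i => Ioc (P i) (2 * P i))
        (fun v => (∀ i, Typical η (v i)) ∧ ∀ i j, i < j → Typical η (v i * v j))).ncard := by
      refine Set.ncard_le_ncard ?_ (Tup_fin _ _)
      rintro v ⟨hv0, hv1, hv2⟩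
      refine ⟨hv0, fun i => ?_, hv2⟩
      have := hv1 {i} (singleton_nonempty i)
      rwa [sum_singleton] at this
    have s1' : ((Tup (fun i => Ioc (P i) (2 * P i)) (fun v => SumsFollow v ∧
        ((∀ i, Typical (η / 2) (v i)) ∧ ∀ i j, i < j → Typical η (v i * v j)))).ncard : ℝ) ≤
        (Tup (fun i => Ioc (P i) (2 * P i)) (fun v =>
          ((∀ J : Finset (Fin k), J.Nonempty → Typical η (∑ i ∈ J, v i)) ∧
              ∀ i j, i < j → Typical η (v i * v j)))).ncard := by exact_mod_cast s1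
    have s2' : ((Tup (fun i => Ioc (P i) (2 * P i)) (fun v =>
          ((∀ J : Finset (Fin k), J.Nonempty → Typical η (∑ i ∈ J, v i)) ∧
              ∀ i j, i < j → Typical η (v i * v j)))).ncard : ℝ) ≤
        (Tup (fun i => Ioc (P i) (2 * P i))
        (fun v => (∀ i, Typical η (v i)) ∧ ∀ i j, i < j → Typical η (v i * v j))).ncard := by exact_mod_cast s2
    show |((Tup (fun i => Ioc (P i) (2 * P i)) (fun v =>
          ((∀ J : Finset (Fin k), J.Nonempty → Typical η (∑ i ∈ J, v i)) ∧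
              ∀ i j, i < j → Typical η (v i * v j)))).ncard : ℝ) -
          δ ^ (k + k * (k - 1) / 2) * ∏ i, (P i : ℝ)| ≤ ε * ∏ i, (P i : ℝ)
    rw [abs_le] at f1' f2' ⊢
    have hε2 : 0 ≤ ε / 2 * ∏ i, (P i : ℝ) := by positivity
    constructor <;> linarith [f1'.1, f2'.2]
  · intro k m hm a b x y c hc hyx
    have hm0 : (0 : ℝ) < m := by exact_mod_cast hm
    have hl3 : 0 < Real.log 3 := Real.log_pos (by norm_num)
    have hPhi : ∀ i j, Phi (y i j) < Phi (x i j) := by
      intro i j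
      unfold Phi
      rw [← Pool.Agent.H499R2.ND.phi_cdf, ← Pool.Agent.H499R2.ND.phi_cdf]
      exact Pool.Agent.X62.BF.Phi_strict (hyx i j)
    have hd : ∀ e : Fin k × Fin k, PL (fun n => Level m (a e.1 e.2) (b e.1 e.2) (x e.1 e.2) n ∧
        ¬ Level m (a e.1 e.2) (b e.1 e.2) (y e.1 e.2) n)
        (δ * Phi (x e.1 e.2) / m ^ 2 - δ * Phi (y e.1 e.2) / m ^ 2) := by
      intro e
      refine Pool.Agent.X62.BF.PL_diff (hL m (a e.1 e.2) (b e.1 e.2) (y e.1 e.2) hm)
        (hL m (a e.1 e.2) (b e.1 e.2) (x e.1 e.2) hm) ?_ (fun _ => Iff.rfl)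
      rintro n ⟨l, g1, g2, g3⟩
      refine ⟨l, g1.trans ?_, g2, g3⟩
      unfold bound
      have : 0 ≤ Real.log 3 * Real.sqrt (2 / (Real.log (4 / 3) ^ 3 * Real.log n)) := by positivity
      have := hyx e.1 e.2
      nlinarith
    set η : Fin k × Fin k → ℝ := fun e => δ * Phi (x e.1 e.2) / m ^ 2 - δ * Phi (y e.1 e.2) / m ^ 2 with hη
    have hη0 : ∀ e, 0 < η e := by
      intro e
      have e1 : η e = δ * (Phi (x e.1 e.2) - Phi (y e.1 e.2)) / m ^ 2 := by rw [hη]; ring
      rw [e1]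
      have : 0 < Phi (x e.1 e.2) - Phi (y e.1 e.2) := by linarith [hPhi e.1 e.2]
      positivity
    have hη1 : ∀ e, η e ≤ 1 := by
      intro e
      have := (h01 m (x e.1 e.2) hm).2
      have := (h01 m (y e.1 e.2) hm).1
      show δ * Phi (x e.1 e.2) / m ^ 2 - δ * Phi (y e.1 e.2) / m ^ 2 ≤ 1
      linarith
    set ε : ℝ := (∏ e ∈ univ.filter (fun e : Fin k × Fin k => e.1 < e.2), η e) * c ^ k / 4 with hε
    have hE0 : 0 < ∏ e ∈ univ.filter (fun e : Fin k × Fin k => e.1 < e.2), η e := prod_pos fun e _ => hη0 e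
    have hε0 : 0 < ε := by positivity
    obtain ⟨ϑ1, h6, H⟩ := joint_sets k _ η (fun e => ⟨(hη0 e).le, hη1 e⟩) hd hε0
    obtain ⟨ϑ3, t3, N3, k3⟩ := sums_fol k hε0
    refine ⟨min ϑ1 ϑ3, lt_min h6 t3, fun α hα => ?_⟩
    obtain ⟨N0, H⟩ := H α hα
    refine ⟨max 1 (max N0 N3), fun P hP X hX hXc => ?_⟩
    have hP1 : ∀ i, 1 ≤ P i := fun i => (le_max_left _ _).trans (hP.1 i)
    have hP1r : ∀ i, (1 : ℝ) ≤ P i := fun i => by exact_mod_cast hP1 i
    have h := H P (fun i => ((le_max_left _ _).trans (le_max_right _ _)).trans (hP.1 i))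
      (fun i j hij => ⟨(hP.2 i j hij).1, (hP.2 i j hij).2.trans
        (Real.rpow_le_rpow_of_exponent_le (hP1r j) (min_le_left _ _))⟩) X hX
    have hF := k3 P (fun i => ((le_max_right _ _).trans (le_max_right _ _)).trans (hP.1 i))
      (fun i j hij => (hP.2 i j hij).2.trans
        (Real.rpow_le_rpow_of_exponent_le (hP1r j) (min_le_right _ _)))
    have h' := drop hX (fun v => ∀ i j : Fin k, i < j →
        (Level m (a i j) (b i j) (x i j) (v i * v j) ∧ ¬ Level m (a i j) (b i j) (y i j) (v i * v j))) SumsFollow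
      (m := (∏ e ∈ univ.filter (fun e : Fin k × Fin k => e.1 < e.2), η e) * ∏ i, ((X i).card : ℝ))
      (e1 := ε * ∏ i, (P i : ℝ)) (e2 := ε * ∏ i, (P i : ℝ))
      (by rw [Tup_card]; convert h) (by rw [Tup_card]; convert hF; exact Iff.rfl)
    have hPr : 0 < ∏ i, (P i : ℝ) := prod_pos fun i _ => by exact_mod_cast hP1 i
    have hX2 : c ^ k * ∏ i, (P i : ℝ) ≤ ∏ i, ((X i).card : ℝ) := by
      calc c ^ k * ∏ i, (P i : ℝ) = ∏ i, (c * P i) := by
            rw [prod_mul_distrib, prod_const, card_univ, Fintype.card_fin]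
        _ ≤ _ := prod_le_prod (fun i _ => by positivity) (fun i _ => hXc i)
    have h7 : 0 < ((Tup X (fun v => SumsFollow v ∧ ∀ i j : Fin k, i < j →
        (Level m (a i j) (b i j) (x i j) (v i * v j) ∧ ¬ Level m (a i j) (b i j) (y i j) (v i * v j)))).ncard : ℝ) := by
      rw [abs_le] at h'
      have h8 := mul_le_mul_of_nonneg_left hX2 hE0.le
      have h9 : ε * ∏ i, (P i : ℝ) = (∏ e ∈ univ.filter (fun e : Fin k × Fin k => e.1 < e.2), η e) *
        (c ^ k * ∏ i, (P i : ℝ)) / 4 := by rw [hε]; ring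
      have h10 : 0 < (∏ e ∈ univ.filter (fun e : Fin k × Fin k => e.1 < e.2), η e) *
        (c ^ k * ∏ i, (P i : ℝ)) := by positivity
      linarith [h'.1]
    obtain ⟨v, hv⟩ := Set.nonempty_of_ncard_ne_zero (show (Tup X (fun v => SumsFollow v ∧ ∀ i j : Fin k, i < j →
        (Level m (a i j) (b i j) (x i j) (v i * v j) ∧ ¬ Level m (a i j) (b i j) (y i j) (v i * v j)))).ncard ≠ 0 by
      intro h0'
      rw [h0'] at h7
      simp at h7)
    exact ⟨v, hv.1, hv.2.1, hv.2.2⟩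

end Pool.Agent.Results.MP_f7abf1_nt.SumsAndProducts
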